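import Pool.Agent.H438.CT.Near

/-!
# Locally geometric sections over products of cubic twists: the local points at three are rational

Let `K` be the field of third roots of unity and `E_D : y² + D y = x³`. Consider the squarefree `D` in
the ring of integers which are `1` modulo `3` and whose norm is not `1` modulo `9`, ordered by the norm.
For a proportion `0.639...` of them `E_D(K)` is finite and `Ш(E_D / K)[3^∞] = 0` (`Good` below; this is
unconditional, from the law of the Selmer groups of the cubic twists in the library).

Let `D_1, …, D_n` be good, not necessarily different, let `X` be any closed subset of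
`E_{D_1} × … × E_{D_n}` over `K`, let `C` be a smooth curve over `K` with function field `F` and a map
to `X`, that is, a point `P` of `X(F)`, and let `s` be a section of the map from `π₁(C)` to the absolute
Galois group of `K` which is given over the completion of `K` at each finite place `v` by a point (or a
cusp), that is, by a place `p v` of the field `M` of `π₁(C)`. Then there is a tuple `y` of the rational
points `O`, `(0, 0)`, `(0, -D_i)` of the curves `E_{D_i}` such that

* the image of `s` in the pro-3 fundamental group of each `E_{D_i}` is the section of the rational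
  point `y i`: for every `k` there is a point `Q` over `M` with `P i = y i + 3 ^ k • Q` which is fixed
  by the image of `s`;
* at every finite place `v` the image `Q` in `X(K_v)` of the local point is congruent to `y`
  modulo `3 ^ k • E_{D_i}(K_v)` for all `k`; at the place `v` above three, `2 • Q i = 2 • y i`, and
  `Q i = y i` if `D_i` is not `-2` modulo `9`;
* so if no `D_i` is `-2` modulo `9`, then `y` is a point of `X(K)` and over `K_v`, `v` above three, the
  section `s` is given by a point above the rational point `y`. If `X` contains none of the `3 ^ n`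
  points then `π₁(C)` has no section which is given by points over the completions.

The section conjecture predicts that `s` is the section of a rational point of `C` (or is cuspidal), so
that in particular the local points lie over a rational point of `X`. Nothing is assumed about the
other primary parts of the Tate-Shafarevich groups.

The fundamental group is described as in the library: `C` is the set of the valuation rings of the
points of the curve, and the field `M` can be any extension of `F` which embeds in the algebraic
closure `Ω` and contains the maximal extension of `F` unramified over `C`.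

Proof. The point `P i` is divisible by `3 ^ k` over `M`, and the cocycle of a division point is in the
Selmer group of `3 ^ k`, as it comes from the local points. So it is the Kummer class of a rational
point; as `E_{D_i}(K)` is finite one rational point serves all `k`. At `v` above three the points
divisible by all powers of three in `E_{D_i}(K_v)` have order prime to three, and this order is at
most two, and is one if `D_i` is not `-2` modulo `9`.
-/

set_option autoImplicit false

open IsDedekindDomain NumberField WeierstrassCurve MvPolynomial Pool.Agent.TH954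
  Pool.Agent.W620.SC

open scoped Classical

namespace Pool.Agent.Results.MP_e66f84_ag.SectionsOverCubicTwists

/-- the curve `E_D : y² + D y = x³` -/
def curve {K : Type} [Field K] (D : K) : WeierstrassCurve K := ⟨0, 0, D, 0, 0⟩

/-- `D` is squarefree and `1` modulo `3`, and its norm is not `1` modulo `9`. -/
def InClass {K : Type} [Field K] [NumberField K] (D : 𝓞 K) : Prop :=
  (3 : 𝓞 K) ∣ D - 1 ∧ Squarefree D ∧ ¬ (9 : ℤ) ∣ Algebra.norm ℤ D - 1

/-- `D` is in the class, `E_D(K)` is finite and the 3-primary part of `Ш(E_D / K)` is trivial. -/
def Good {K : Type} [Field K] [NumberField K] (D : 𝓞 K) : Prop :=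
  InClass D ∧ Finite (curve (D : K)).toAffine.Point ∧
    ∀ (n : ℕ) (x : Pool.Agent.TH841.NF.D.Sha (curve (D : K))), 3 ^ n • x = 0 → x = 0

/-- The proportion of the good elements among the elements of the class of norm at most `X`. -/
noncomputable def proportion (K : Type) [Field K] [NumberField K] (X : ℕ) : ℝ :=
  ({D : 𝓞 K | Algebra.norm ℤ D ≤ X ∧ Good D}.ncard : ℝ) /
    ({D : 𝓞 K | Algebra.norm ℤ D ≤ X ∧ InClass D}.ncard : ℝ)

/-- The point `y` is one of `O`, `(0, 0)`, `(0, -D)`. -/
def IsTor {K : Type} [Field K] (D : K) (y : ((curve D).baseChange K).toAffine.Point) : Prop :=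
  crd y = ![0, 1, 0] ∨ crd y = ![0, 0, 1] ∨ crd y = ![0, -D, 1]

/-- The rational point `y` as a point over the extension `L`. -/
noncomputable def ratPt {K : Type} [Field K] (E : WeierstrassCurve K) (L : Type) [Field L]
    [Algebra K L] (y : (E.baseChange K).toAffine.Point) : (E.baseChange L).toAffine.Point :=
  Affine.Point.map (W' := E) (Algebra.ofId K L) y

/-- The image of the section `s` in the pro-3 fundamental group of `E`, through the point `P` of `E`
over `F`, is the section of the rational point `y`: for every `k` there is a point `Q` of `E` over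
`M` with `P = y + 3 ^ k • Q` which is fixed by all the `s g`. -/
def IsProThree {K F M B : Type} [Field K] [Field F] [Field M] [Field B] [Algebra K F]
    [Algebra F M] [Algebra K M] [Algebra K B] [IsScalarTower K F M] (s : GalSection K F M B)
    (E : WeierstrassCurve K) (P : (E.baseChange F).toAffine.Point)
    (y : (E.baseChange K).toAffine.Point) : Prop :=
  ∀ k : ℕ, ∃ Q : (E.baseChange M).toAffine.Point,
    Affine.Point.map (W' := E) (IsScalarTower.toAlgHom K F M) P = ratPt E M y + 3 ^ k • Q ∧
    ∀ g : B ≃ₐ[K] B,
      Affine.Point.map (W' := E) ((s.s g : M →ₐ[F] M).restrictScalars K) Q = Q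

/-- The place `p` maps the point `P` to a point `Q` of `X(K_v)` such that the points `Q i - y i` are
divisible by all powers of three; if `v` is above three then `2 • Q i = 2 • y i`, and `Q i = y i` if
`D i` is not `-2` modulo `9`. -/
def LocalPoint {K F M : Type} [Field K] [NumberField K] [Field F] [Field M] [Algebra K F]
    [Algebra F M] [Algebra K M] {n : ℕ} (D : Fin n → 𝓞 K)
    (S : Set (MvPolynomial (Fin n × Fin 3) K))
    (P : (i : Fin n) → ((curve (D i : K)).baseChange F).toAffine.Point)
    (y : (i : Fin n) → ((curve (D i : K)).baseChange K).toAffine.Point)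
    (v : HeightOneSpectrum (𝓞 K)) (p : Plc K M (AlgebraicClosure (v.adicCompletion K))) : Prop :=
  ∃ Q : (i : Fin n) → ((curve (D i : K)).baseChange (v.adicCompletion K)).toAffine.Point,
    OnX S (fun i => crd (Q i)) ∧
    (∀ i, p.Spec (fun j => algebraMap F M (crd (P i) j))
      (fun j => algebraMap (v.adicCompletion K) (AlgebraicClosure (v.adicCompletion K))
        (crd (Q i) j))) ∧
    (∀ i (k : ℕ), ∃ z, Q i = ratPt (curve (D i : K)) (v.adicCompletion K) (y i) + 3 ^ k • z) ∧
    (((3 : ℕ) : 𝓞 K) ∈ v.asIdeal → ∀ i,
      2 • Q i = 2 • ratPt (curve (D i : K)) (v.adicCompletion K) (y i) ∧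
      (¬ (9 : 𝓞 K) ∣ D i + 2 → Q i = ratPt (curve (D i : K)) (v.adicCompletion K) (y i)))

/-- **Theorem.** Let `K` be the field of third roots of unity. A proportion of more than `0.639` of
the `D` of the class is good, and for all good `D i` the sections which are locally given by points
have the properties stated above. -/
theorem result (K : Type) [Field K] [NumberField K] [IsCyclotomicExtension {3} ℚ K] :
    (∃ c : ℝ, 0.639 < c ∧ Filter.Tendsto (proportion K) Filter.atTop (nhds c)) ∧
    ∀ (n : ℕ) (D : Fin n → 𝓞 K), (∀ i, Good (D i)) →
      ∀ (S : Set (MvPolynomial (Fin n × Fin 3) K)) (_ : ∀ f ∈ S, ∃ d, MultiHom d f)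
        (F Ω M B : Type) [Field F] [Field Ω] [Field M] [Field B] [Algebra K F] [Algebra F Ω]
        [Algebra K Ω] [Algebra F M] [Algebra K M] [Algebra K B] [IsScalarTower K F Ω]
        [IsScalarTower K F M] [IsAlgClosure F Ω] [IsAlgClosure K B]
        (C : Set (ValuationSubring F)) (_ : ∀ O ∈ C, ∀ c : K, algebraMap K F c ∈ O)
        (e : M →ₐ[F] Ω) (_ : unramified F Ω C ≤ e.fieldRange)
        (P : (i : Fin n) → ((curve (D i : K)).baseChange F).toAffine.Point)
        (_ : OnX S (fun i => crd (P i))) (s : GalSection K F M B)
        (p : ∀ v : HeightOneSpectrum (𝓞 K), Plc K M (AlgebraicClosure (v.adicCompletion K)))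
        (_ : ∀ v, s.GivenBy (v.adicCompletion K) (p v)),
        ∃ y : (i : Fin n) → ((curve (D i : K)).baseChange K).toAffine.Point,
          (∀ i, IsTor (D i : K) (y i)) ∧ (∀ i, IsProThree s (curve (D i : K)) (P i) (y i)) ∧
          (∀ v, LocalPoint D S P y v (p v)) ∧
          ((∀ i, ¬ (9 : 𝓞 K) ∣ D i + 2) → OnX S (fun i => crd (y i))) := by
  refine ⟨?_, ?_⟩
  · obtain ⟨-, h2, h3, ⟨h4, -, -⟩, -⟩ := Pool.Agent.XL6.finalXL K
    refine ⟨Pool.Agent.XL6.prob 0, h4, (h3 0).congr fun X => ?_⟩
    have e : {D : 𝓞 K | Algebra.norm ℤ D ≤ X ∧ Pool.Agent.Y696.CTK.ClsK D ∧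
        (Pool.Agent.XL6.SelK (D : K)).ncard = 3 ^ (0 + 1)} =
        {D : 𝓞 K | Algebra.norm ℤ D ≤ X ∧ Good D} := by
      ext D
      refine and_congr_right fun _ => ⟨fun h => ⟨h.1, ?_⟩, fun h => ⟨h.1, ?_⟩⟩
      · exact (h2 D h.1).2.2.1 (by rw [h.2]; norm_num)
      · rw [(h2 D h.1).2.2.2 h.2]; norm_num
    rw [e]
    rfl
  · intro n D hD S hS F Ω M B _ _ _ _ _ _ _ _ _ _ _ _ _ _ C hC e he P hP s p hp
    obtain ⟨y, h1, h2, h3, h4⟩ := Pool.Agent.H438.CT.main (fun i => (hD i).1)
      (fun i => (hD i).2) S hS C hC e he P hP s p hp
    exact ⟨y, fun i => (h1 i).2, h2, h3, h4⟩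

end Pool.Agent.Results.MP_e66f84_ag.SectionsOverCubicTwists
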