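import Pool.Agent.H438.QT.Sec

/-!
# Locally geometric sections over products of quadratic twists of `X_0(49)` over `ℚ`: the local points
# at two are rational

Let `E_D : y² = x³ - 2835 D² x - 71442 D³`; this is the quadratic twist by `D` of the curve
`X_0(49) : y² + x y = x³ - x² - 2 x - 1`. Consider the squarefree `D ≥ 1` all whose prime factors are
`1` modulo `4`. For the proportion `c = 0.4194...` of them `E_D(ℚ)` is finite and `Ш(E_D / ℚ)[2] = 0`
(`Good` below), and there are at least `a X / √(log X)` of them up to `X`; this is unconditional, from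
the 2-descent and the counting in the library (`MP_92892c_nt.FullClassTwoPartX49`).

Let `D_1, …, D_n` be good, not necessarily different, let `X` be any closed subset of
`E_{D_1} × … × E_{D_n}` over `ℚ`, let `C` be a smooth curve over `ℚ` with function field `F` and a map
to `X`, that is, a point `P` of `X(F)`, and let `s` be a section of the map from `π₁(C)` to the absolute
Galois group of `ℚ` which is given over `ℚ_v` for all primes and over `ℝ` by a point (or a cusp), that
is, by a place of the field `M` of `π₁(C)`. Then there is a tuple `y` of the rational points `O` and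
`(63 D_i, 0)` of the curves `E_{D_i}` such that

* the image of `s` in the pro-2 fundamental group of each `E_{D_i}` is the section of the rational
  point `y i`: for every `k` there is a point `Q` over `M` with `P i = y i + 2 ^ k • Q` which is fixed
  by the image of `s`;
* at every place `v` (finite or real) the image `Q` in `X(ℚ_v)` of the local point is congruent to `y`
  modulo `2 ^ k • E_{D_i}(ℚ_v)` for all `k`, and at the place two it is equal to `y`;
* so `y` is a rational point of `X`, and over `ℚ_2` the section `s` is given by a point of `C` above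
  the rational point `y` of `X`. If `X(ℚ)` is empty then `π₁(C)` has no section which is given by
  points over the completions.

The section conjecture predicts that `s` is the section of a rational point of `C` (or is cuspidal), so
that in particular the local points lie over a rational point of `X`. Nothing is assumed about the odd
part of the Tate-Shafarevich groups.

The fundamental group is described as in the library: `C` is the set of the valuation rings of the
points of the curve, and the field `M` can be any extension of `F` which embeds in the algebraic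
closure `Ω` and contains the maximal extension of `F` unramified over `C`.
-/

set_option autoImplicit false

open IsDedekindDomain NumberField WeierstrassCurve MvPolynomial Pool.Agent.TH954
  Pool.Agent.W620.SC

open scoped Classical

namespace Pool.Agent.Results.MP_e66f84_ag.SectionsOverTwistsOfX49

/-- the curve `E_D : y² = x³ - 2835 D² x - 71442 D³` over `ℚ`, the twist by `D` of `X_0(49)` -/
def curve (D : ℕ) : WeierstrassCurve ℚ := ⟨0, 0, 0, -2835 * (D : ℚ) ^ 2, -71442 * (D : ℚ) ^ 3⟩

/-- `D` is squarefree and all its prime factors are `1` modulo `4`. -/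
def InClass (D : ℕ) : Prop := Squarefree D ∧ ∀ p ∈ D.primeFactors, p % 4 = 1

/-- `D` is in the class, `E_D(ℚ)` is finite and `Ш(E_D / ℚ)` has no element of order two. -/
def Good (D : ℕ) : Prop :=
  InClass D ∧ Finite (curve D).toAffine.Point ∧
    ∀ x : Pool.Agent.TH841.NF.D.Sha (curve D), 2 • x = 0 → x = 0

/-- the number of the `D ≤ X` with the property `Q` -/
noncomputable def number (Q : ℕ → Prop) (X : ℕ) : ℝ := ({D : ℕ | D ≤ X ∧ Q D}.ncard : ℝ)

/-- The points of the product of the curves `E_{D i}` over the extension `L` of `ℚ`. -/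
abbrev Pts {n : ℕ} (D : Fin n → ℕ) (L : Type) [Field L] [Algebra ℚ L] : Type :=
  (i : Fin n) → ((curve (D i)).baseChange L).toAffine.Point

/-- All the components of `y` are among the points `O` and `(63 D i, 0)`. -/
def IsTor {n : ℕ} {D : Fin n → ℕ} (y : Pts D ℚ) : Prop :=
  ∀ i, crd (y i) = ![0, 1, 0] ∨ crd (y i) = ![63 * (D i : ℚ), 0, 1]

/-- The rational point `y` as a point over the extension `L`. -/
noncomputable def ratPt {n : ℕ} {D : Fin n → ℕ} (y : Pts D ℚ) (L : Type) [Field L] [Algebra ℚ L] :
    Pts D L :=
  fun i => Affine.Point.map (W' := curve (D i)) (Algebra.ofId ℚ L) (y i)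

/-- The images of the section `s` in the pro-2 fundamental groups of the curves, through the point `P`
over `F`, are the sections of the components of the rational point `y`: for every `k` there are points
`Q` over `M` with `P i = y i + 2 ^ k • Q` which are fixed by all the `s g`. -/
def IsProTwo {F M B : Type} [Field F] [Field M] [Field B] [Algebra ℚ F]
    [Algebra F M] [Algebra ℚ M] [Algebra ℚ B] [IsScalarTower ℚ F M] {n : ℕ} {D : Fin n → ℕ}
    (s : GalSection ℚ F M B) (P : Pts D F) (y : Pts D ℚ) : Prop :=
  ∀ i (k : ℕ), ∃ Q : ((curve (D i)).baseChange M).toAffine.Point,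
    Affine.Point.map (W' := curve (D i)) (IsScalarTower.toAlgHom ℚ F M) (P i) =
      ratPt y M i + 2 ^ k • Q ∧
    ∀ g : B ≃ₐ[ℚ] B,
      Affine.Point.map (W' := curve (D i)) ((s.s g : M →ₐ[F] M).restrictScalars ℚ) Q = Q

/-- The place `p` maps the point `P` to the point `Q` of `X(L)`, and the points `Q i - y i` are
divisible by all powers of two. -/
def LocalPoint {F M : Type} [Field F] [Field M] [Algebra ℚ F] [Algebra F M] [Algebra ℚ M] {n : ℕ}
    {D : Fin n → ℕ} (S : Set (MvPolynomial (Fin n × Fin 3) ℚ)) (P : Pts D F) (y : Pts D ℚ)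
    (L : Type) [Field L] [Algebra ℚ L] (p : Plc ℚ M (AlgebraicClosure L)) (Q : Pts D L) : Prop :=
  OnX S (fun i => crd (Q i)) ∧
  (∀ i, p.Spec (fun j => algebraMap F M (crd (P i) j))
    (fun j => algebraMap L (AlgebraicClosure L) (crd (Q i) j))) ∧
  ∀ i (k : ℕ), ∃ z, Q i = ratPt y L i + 2 ^ k • z

section proof

lemma number_eq {Q : ℕ → Prop} {R : ℕ → Prop}
    (h : ∀ D, Q D ↔ InClass D ∧ R D) (X : ℕ) : number Q X =
      (Pool.Agent.Results.MP_92892c_nt.FullClassTwoPartX49.num R X : ℝ) := by
  unfold number Pool.Agent.Results.MP_92892c_nt.FullClassTwoPartX49.num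
  rw [← Set.ncard_coe_finset]
  congr 2
  ext D
  rw [Set.mem_ofPred_eq, Finset.mem_coe, Finset.mem_filter, Finset.mem_Icc, h]
  constructor
  · rintro ⟨h1, h2, h3⟩
    have h0 : D ≠ 0 := by
      rintro rfl
      exact not_squarefree_zero h2.1
    exact ⟨⟨Nat.pos_of_ne_zero h0, h1⟩, h2, h3⟩
  · rintro ⟨h1, h2, h3⟩
    exact ⟨h1.2, h2, h3⟩

theorem good_two (D : ℕ) : Good D ↔
    InClass D ∧ Pool.Agent.Results.MP_4a9ea6_nt.TwoPartTwistsX49.TwoPart D := by
  refine and_congr_right fun h => ?_
  rw [(Pool.Agent.Results.MP_92892c_nt.FullClassTwoPartX49.result.1 D h).2]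
  exact Pool.Agent.H438.QT.good_iff h

end proof

/-- **Theorem.** The proportion `0.4194...` of the `D` of the class is good, and for all good `D i`
the sections which are locally given by points have the properties stated above. -/
theorem result :
    (∃ c : ℝ, 0.4194 < c ∧ c < 0.4195 ∧
      Filter.Tendsto (fun X => number Good X / number InClass X) Filter.atTop (nhds c)) ∧
    (∃ (a : ℝ) (X₀ : ℕ), 0 < a ∧ ∀ X : ℕ, X₀ ≤ X → a * X / Real.sqrt (Real.log X) ≤ number Good X) ∧
    ∀ (n : ℕ) (D : Fin n → ℕ), (∀ i, Good (D i)) →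
      ∀ (S : Set (MvPolynomial (Fin n × Fin 3) ℚ)) (_ : ∀ f ∈ S, ∃ d, MultiHom d f)
        (F Ω M B : Type) [Field F] [Field Ω] [Field M] [Field B] [Algebra ℚ F] [Algebra F Ω]
        [Algebra ℚ Ω] [Algebra F M] [Algebra ℚ M] [Algebra ℚ B] [IsScalarTower ℚ F Ω]
        [IsScalarTower ℚ F M] [IsAlgClosure F Ω] [IsAlgClosure ℚ B]
        (C : Set (ValuationSubring F)) (_ : ∀ O ∈ C, ∀ c : ℚ, algebraMap ℚ F c ∈ O)
        (e : M →ₐ[F] Ω) (_ : unramified F Ω C ≤ e.fieldRange)
        (P : Pts D F) (_ : OnX S (fun i => crd (P i))) (s : GalSection ℚ F M B)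
        (p : ∀ v : HeightOneSpectrum (𝓞 ℚ), Plc ℚ M (AlgebraicClosure (v.adicCompletion ℚ)))
        (_ : ∀ v, s.GivenBy (v.adicCompletion ℚ) (p v))
        (q : ∀ w : InfinitePlace ℚ, Plc ℚ M (AlgebraicClosure w.Completion))
        (_ : ∀ w, s.GivenBy w.Completion (q w)),
        ∃ y : Pts D ℚ, IsTor y ∧ OnX S (fun i => crd (y i)) ∧ IsProTwo s P y ∧
          (∀ v, ∃ Q, LocalPoint S P y (v.adicCompletion ℚ) (p v) Q ∧
            (((2 : ℕ) : 𝓞 ℚ) ∈ v.asIdeal → Q = ratPt y (v.adicCompletion ℚ))) ∧
          ∀ w, ∃ Q, LocalPoint S P y w.Completion (q w) Q := by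
  have hlib := Pool.Agent.Results.MP_92892c_nt.FullClassTwoPartX49.result
  refine ⟨⟨Pool.Agent.Results.MP_92892c_nt.FullClassTwoPartX49.cc, hlib.2.2.1, hlib.2.2.2.1, ?_⟩,
    ?_, ?_⟩
  · refine hlib.2.1.congr fun X => ?_
    rw [number_eq good_two, number_eq (R := fun _ => True) (fun D => by rw [and_true])]
  · obtain ⟨a, X₀, ha, h⟩ := hlib.2.2.2.2
    refine ⟨a, X₀, ha, fun X hX => ?_⟩
    rw [number_eq good_two]
    exact h X hX
  · intro n D hD S hS F Ω M B _ _ _ _ _ _ _ _ _ _ _ _ _ _ C hC e he P hP s p hp q hq
    have h4 : ∀ i, D i % 4 = 1 := fun i => Pool.Agent.H438.QT.mod_four (hD i).1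
    have hodd : ∀ i, Odd (D i) := fun i => by
      rw [Nat.odd_iff]
      have := h4 i
      omega
    obtain ⟨y, h1, h2, h3, h5, h6⟩ := Pool.Agent.H438.QT.sec_rat hodd (fun i => (hD i).2.2)
      (fun i => (hD i).2.1) S hS C hC e he P hP s p hp q hq
    exact ⟨y, h1, h2, h3, h5, h6⟩

end Pool.Agent.Results.MP_e66f84_ag.SectionsOverTwistsOfX49
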