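import Pool.Agent.H889.RS.GeoK
import Pool.Graph.R_seed8.W620.SC.Def

/-!
# The pro-`ℓ` section conjecture for twists by `t` of constant curves over `k(t)`

Let `k` be a number field, or any field which is finitely generated over `ℚ`, let `K = k(t)` be the
field of rational functions, and let `ℓ` be a prime number.  Let `C` be a smooth projective
geometrically connected curve of positive genus over `K` with function field `F`, and let `x ∈ F` be a
function, transcendental over `K`, that is, a covering `x : C → ℙ¹`.  Assume:

(a) The curve `C` is isotrivial, in the following sense: it becomes constant over `k̄(t^(1/n))` for some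
`n ≥ 1`, and `x` becomes a function on the constant curve `C₀`.  So `C` is a twist of a constant curve
by a cocycle which is only ramified at `t = 0` and `t = ∞`.

(b) There is a finite étale covering `C' → C₀`, for instance `C' = C₀`, such that `C' → ℙ¹` is a Galois
covering whose group is an `ℓ`-group, abelian or not.

For example `C` is the curve `t y^ℓ = f(x)`, where `f ∈ k[x]` has at least three roots, if `ℓ` divides
no multiplicity of a root; the function field of `C₀` is `k̄(x, y₀)`, `y₀^ℓ = f(x)`, `y₀ = t^(1/ℓ) y`.  More
generally one can take `c t^a y^N = f(x)`, `N = ℓ^j`, `c ∈ k`, and systems of such equations, the curves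
`X^N + c t^a Y^N = d t^b Z^N`, twists of coverings with nonabelian `ℓ`-groups, and finite étale
coverings of such curves whose Galois closures have geometric group an `ℓ`-group.  For the superelliptic
curves `c t^a y^ℓ = f(x)` and `c t^a y^ℓ = g(d t^b x^m)`, `f` and `g(x^m)` separable, (1) is in the library
of earlier runs (`MP_e66f84_ag`, `GenericTwists` and `GenericTwistsByRotations`), with a different proof.

Let `M` be the maximal pro-`ℓ` extension of `K̄ F` unramified over `C`, so that `Gal(M/F)` is the
geometrically pro-`ℓ` fundamental group of `C`, the quotient of `π₁(C)` by the kernel of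
`π₁(C_K̄) → π₁(C_K̄)^(pro-ℓ)`.  By the invariance of the fundamental group under extensions of
algebraically closed fields of characteristic zero `M = K̄ M₀`, where `M₀` is the maximal unramified
pro-`ℓ` extension of the function field `F₀` of `C₀`.  (In the Lean statement `M` is defined to be
`K̄ M₀`, and `M ⊆ F_C` is proved, where `π₁(C) = Gal(F_C/F)`.)

**Theorem.**  (1) Assume that `C` is not constant over `k̄(t)`.  Then for every section `s` of
`Gal(M/F) → G_K` there is exactly one closed point of `C_K̄`, or rather exactly one valuation ring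
`W ≠ M` of `M` over `K`, such that the image of `s` is contained in the decomposition group of `W`.  It
lies above a `K`-rational point of `C`, and `x` is ramified at this point.  The section is determined
by `W`.  So the section conjecture is true for `C` over `K` and the geometrically pro-`ℓ` fundamental
group: the classes of sections of `Gal(M/F) → G_K` are in bijection with `C(K)`.  The same holds for the
sections of `π₁(C) → G_K`, which all induce on `M` the section of a unique rational point.
(2) If `C` is constant over `k̄(t)`, then every section `s` of `Gal(M/F) → G_K` is constant: if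
`σ ∈ G_K` is the identity on `k̄`, then `s(σ)` is the identity on `M₀`.  So `s` is a section of
`Gal(M₀/F₀) → G_k` for the constant curve `C₀` (after a finite extension of `k`).

In particular, if `x` has no ramification point which is rational over `K`, then `π₁(C) → G_K` has no
section in the situation of (1).  For instance the fundamental group of `t y^ℓ = f(x)`, where `f ∈ k[x]`
is separable of degree `≥ 3` divisible by `ℓ` and has no root in `k`, has no section over `k(t)`.

The proof does not use known cases of the section conjecture.  (1) Let `M₀` be as above; the section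
defines an action of `G_K` on `M₀`, and `G_{k̄(t)}` acts through `G = Gal(M₀/k̄(x))`, which is a pro-`ℓ`
group that contains `Gal(M₀/F₀)` as an open subgroup.  Let `V` be a prolongation to `K̄` of the point
`t = c` of the line, `c ∈ k̄ ∪ {∞}`, `c ≠ ∞`, and let `δ ∈ G_{k̄(t)}` be in the decomposition group of `V`.
If `Φ ∈ G_K` is in the decomposition group of `V` and acts on `k̄` as a Frobenius element with `q` elements
(at a prime of good reduction for the branch points of `C' → ℙ¹`), then `Φ δ Φ⁻¹` and `δ^q` coincide on
all extensions of `k̄(t)` of degree a power of `ℓ`.  Therefore `s(Φ)` conjugates `s(δ)` to its `q`-th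
power, and then weights show that `s(δ)` has finite order: an element of `Gal(M₀/N)`, `N` the function
field of `C'`, with this property is trivial, because the classes of `M_0^× / N^×` on which Frobenius acts
as on the roots of unity have bounded exponent.  (2) An element of order `ℓ` of `G` fixes exactly one
place of `M₀`, and this place is ramified over `k̄(x)`.  If `c ≠ 0`, then `s(δ)` is the identity on `F₀`,
because `δ` fixes `t^(1/n)`, and as `M₀/F₀` is unramified it follows that `s(δ) = 1`.  (3) So the
extension of `k̄(t)` cut out by `s` on a finite level of `M₀` is unramified outside of `0` and `∞`, it is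
cyclic and generated by the image `γ` of a generator of the decomposition group at `0`.  If `γ ≠ 1`,
then a power of `γ` of order `ℓ` fixes exactly one place of `M₀`, which is then fixed by `s(G_K)`.
(4) A place of `M₀` has exactly one prolongation to `K̄ M₀` which is trivial on `K̄` (linear
disjointness and leading terms), and a valuation ring of `K̄ M₀` which contains `M₀` can not be fixed
by `s(G_K)`: it would define an equivariant embedding of `M₀` into a finite extension of `k̄(t)`.

Here the theorem is stated for an arbitrary extension `N ⊇ M` of `F` in an algebraic closure `Ω`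
instead of `M`: this includes `N = M` and the field `N = F_C` with `Gal(F_C/F) = π₁(C)`.  The
fundamental group is described through valuations: for a set `U` of valuation rings of `F` over `K`
(the closed points of `C`, or of an open subcurve) `F_U` is the maximal extension of `F` inside `Ω` which
is unramified over `U`.  The map `π₁(U) = Gal(F_U/F) → G_K` is the restriction of automorphisms to the
algebraic closure of `K` in `Ω`.
-/

open Polynomial

namespace Pool.Agent.Results.MP_e66f84_ag.TwistedConstantCurves

section definitions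

variable (ℓ : ℕ) (K F Ω : Type) [Field K] [Field F] [Field Ω] [Algebra K F] [Algebra F Ω]
  [Algebra K Ω]

/-- The inertia group of the valuation ring `W` of `Ω`, as a subgroup of `Gal(Ω/F)`: the
automorphisms of `Ω` over `F` that map `W` onto itself and act as the identity on its residue
field. -/
noncomputable def inertia (W : ValuationSubring Ω) : Subgroup (Ω ≃ₐ[F] Ω) :=
  (W.inertiaSubgroup F).map (W.decompositionSubgroup F).subtype

/-- `F_U`, for a set `U` of valuation rings of `F`: the elements of `Ω` fixed by the inertia groups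
of all valuation rings `W` of `Ω` with `W ∩ F ∈ U`.  If `Ω` is an algebraic closure of a field `F`
of characteristic zero, this is the maximal extension of `F` in `Ω` unramified over `U`. -/
noncomputable def unramified (U : Set (ValuationSubring F)) : IntermediateField F Ω :=
  ⨅ W : {W : ValuationSubring Ω // W.comap (algebraMap F Ω) ∈ U},
    IntermediateField.fixedField (inertia F Ω W.1)

/-- `K̄ F`, the compositum of `F` and of the algebraic closure of `K` in `Ω`. -/
noncomputable def geomField : IntermediateField F Ω :=
  IntermediateField.adjoin F (algebraicClosure K Ω : Set Ω)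

variable {F} in
/-- `K̄(x)`, the subfield of `Ω` generated by `x` and by the algebraic closure of `K` in `Ω`. -/
noncomputable abbrev lineField (x : F) : IntermediateField (algebraicClosure K Ω) Ω :=
  IntermediateField.adjoin (algebraicClosure K Ω) {algebraMap F Ω x}

end definitions

section line

variable (k : Type) {F : Type} (Ω : Type) [Field k] [Field F] [Field Ω] [Algebra k Ω]
  [Algebra F Ω] (x : F)

/-- The field `k̄(x)`. -/
abbrev Line : Type := lineField k Ω x

/-- The algebraic closure of `k(x)` in `Ω`. -/
abbrev LineBar : Type := algebraicClosure (lineField k Ω x) Ω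

noncomputable instance instLine : Field (Line k Ω x) := inferInstance

noncomputable instance instBar : Field (LineBar k Ω x) := inferInstance

noncomputable instance instBarLine : Algebra (Line k Ω x) (LineBar k Ω x) := inferInstance

noncomputable instance instBarConst :
    Algebra (algebraicClosure k Ω) (LineBar k Ω x) := inferInstance

/-- The function `x`, as an element of `k̄(x)`. -/
noncomputable def coordinate : Line k Ω x :=
  ⟨algebraMap F Ω x, IntermediateField.mem_adjoin_simple_self _ _⟩

/-- An element of the algebraic closure of `k(x)` in `Ω`, as an element of `Ω`. -/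
noncomputable def toOmega : LineBar k Ω x →+* Ω := algebraMap (LineBar k Ω x) Ω

end line

section definitions

/-- The algebraic extension `L` of `E` in `Ω` is unramified at all valuation rings of `Ω` that
contain `κ`: every nonzero element of `L` has the same valuation as an element of `E`.  (If `E` is
a function field of one variable over the algebraically closed field `κ` of characteristic zero, then
this says that `L/E` is unramified over all points of the smooth projective curve.) -/
def Unramified {κ E Ω : Type} [Field κ] [Field E] [Field Ω] [Algebra κ Ω] [Algebra E Ω]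
    (L : IntermediateField E Ω) : Prop :=
  ∀ W : ValuationSubring Ω, (∀ c : κ, algebraMap κ Ω c ∈ W) → ∀ z ∈ L, z ≠ 0 →
    ∃ u : E, u ≠ 0 ∧ z / algebraMap E Ω u ∈ W ∧ (z / algebraMap E Ω u)⁻¹ ∈ W

/-- `L/E` is a finite Galois extension whose degree is a power of `ℓ`. -/
def FiniteProEll (ℓ : ℕ) {E Ω : Type} [Field E] [Field Ω] [Algebra E Ω]
    (L : IntermediateField E Ω) : Prop :=
  FiniteDimensional E L ∧ IsGalois E L ∧ ∃ m : ℕ, Module.finrank E L = ℓ ^ m

/-- The maximal unramified pro-`ℓ` extension of `E` in `Ω`, for an extension `E` of `κ`: the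
compositum of the finite Galois extensions of `E` whose degree is a power of `ℓ` and which are
unramified. -/
noncomputable def maxProEll (ℓ : ℕ) (κ E Ω : Type) [Field κ] [Field E] [Field Ω] [Algebra κ Ω]
    [Algebra E Ω] : IntermediateField E Ω :=
  ⨆ L : {L : IntermediateField E Ω // FiniteProEll ℓ L ∧ Unramified (κ := κ) L}, L.1

/-- Let `E ⊆ F₀ ⊆ L ⊆ Ω` be fields, `E = κ(X)`.  `L` is Galois of degree a power of `ℓ` over `E`, it
contains `F₀`, it is unramified over `F₀`, and `B` is a finite set of elements of `κ` such that `L` is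
unramified over `E` outside of infinity and `B`: it is the function field of a curve `C'` which is a
finite étale covering of the curve `C₀` with function field `F₀`, and a Galois covering of the line
with an `ℓ`-group. -/
structure EllGroupCovering (ℓ : ℕ) {κ E Ω : Type} [Field κ] [Field E] [Field Ω] [Algebra κ Ω]
    [Algebra E Ω] (X : E) (B : Finset κ) (F₀ L : IntermediateField E Ω) : Prop where
  galois : FiniteProEll ℓ L
  contains : F₀ ≤ L
  etale : ∀ W : ValuationSubring Ω, (∀ c : κ, algebraMap κ Ω c ∈ W) → ∀ z ∈ L, z ≠ 0 →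
    ∃ u ∈ F₀, u ≠ 0 ∧ z / u ∈ W ∧ (z / u)⁻¹ ∈ W
  branch : ∀ W : ValuationSubring Ω, (∀ c : κ, algebraMap κ Ω c ∈ W) → algebraMap E Ω X ∈ W →
    (∀ b ∈ B, algebraMap E Ω X - algebraMap κ Ω b ∉ W.nonunits) → ∀ z ∈ L, z ≠ 0 →
    ∃ u : E, u ≠ 0 ∧ z / algebraMap E Ω u ∈ W ∧ (z / algebraMap E Ω u)⁻¹ ∈ W

/-- The map `τ : M → M` acts as `σ : K → K` on the elements that the fields `K` and `M` have in
common when they are regarded as subfields of `Ω` through `i` and `j`. -/
def ActsAs {K M Ω : Type} [Field K] [Field M] [Field Ω] (i : K →+* Ω) (j : M →+* Ω) (σ : K → K)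
    (τ : M → M) : Prop :=
  ∀ c z, j z = i c → j (τ z) = i (σ c)

/-- Let `k ⊆ K ⊆ Ω` and `F ⊆ N ⊆ Ω` be fields.  A splitting of `Gal(N/F) → Gal(K/k)`: a continuous
homomorphism `s` from `Gal(K/k)` to `Gal(N/F)` such that `s(σ)` acts as `σ` on the elements of
`K ∩ N`. -/
structure Splitting (k F Ω K N : Type) [Field k] [Field F] [Field Ω] [Field K] [Field N]
    [Algebra k K] [Algebra F N] [Algebra K Ω] [Algebra N Ω] where
  /-- the homomorphism `Gal(K/k) → Gal(N/F)` -/
  toHom : (K ≃ₐ[k] K) →* (N ≃ₐ[F] N)
  cont : Continuous toHom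
  compat : ∀ σ : K ≃ₐ[k] K, ActsAs (algebraMap K Ω) (algebraMap N Ω) σ (toHom σ)

end definitions

section model

variable (ℓ : ℕ) (k K F Ω : Type) [Field k] [Field K] [Field F] [Field Ω] [Algebra k K]
  [Algebra k F] [Algebra K F] [IsScalarTower k K F] [Algebra F Ω] [Algebra k Ω] [Algebra K Ω]
  [IsScalarTower k F Ω] [IsScalarTower K F Ω] [IsScalarTower k K Ω] (x : F)

variable {F} in
lemma line_le (r : Line k Ω x) : toOmega k Ω x (algebraMap (Line k Ω x) (LineBar k Ω x) r) ∈
    geomField K F Ω :=
  Pool.Agent.H889.RS.rat_le x r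

/-- `F₀`, the elements of `K̄ F` that are algebraic over `k(x)`, as an extension of `k̄(x)`.  (If the
curve `C_K̄` has a model `C₀` over `k̄` and `x` is a function on `C₀`, then this is the function field of
`C₀`.) -/
noncomputable def modelField : IntermediateField (Line k Ω x) (LineBar k Ω x) :=
  { (geomField K F Ω).toSubfield.comap (toOmega k Ω x) with
    algebraMap_mem' := line_le k K Ω x }

/-- The field `F₀`. -/
abbrev Model : Type := modelField k K F Ω x

noncomputable instance instModel : Field (Model k K F Ω x) := inferInstance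

noncomputable instance instBarModel : Algebra (Model k K F Ω x) (LineBar k Ω x) :=
  inferInstance

/-- `M₀`, the maximal unramified pro-`ℓ` extension of `F₀` in the algebraic closure of `k(x)`. -/
noncomputable def modelProEll : IntermediateField (Model k K F Ω x) (LineBar k Ω x) :=
  maxProEll ℓ (algebraicClosure k Ω) (Model k K F Ω x) (LineBar k Ω x)

/-- The elements of `F₀`, as elements of `Ω`. -/
def modelSet : Set Ω := {w | ∃ y ∈ modelField k K F Ω x, toOmega k Ω x y = w}

/-- The elements of `M₀`, as elements of `Ω`. -/
def modelProSet : Set Ω := {w | ∃ y ∈ modelProEll ℓ k K F Ω x, toOmega k Ω x y = w}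

/-- `M = K̄ M₀`, as an extension of `F`: the subfield of `Ω` generated by `F`, `K̄` and `M₀`. -/
noncomputable def proEllField : IntermediateField F Ω :=
  IntermediateField.adjoin F ((algebraicClosure K Ω : Set Ω) ∪ modelProSet ℓ k K F Ω x)

variable {K} in
/-- The curve becomes constant over `k̄(t^(1/n))` for some `n ≥ 1`: the field `K̄ F` is generated by
`K̄` and `F₀`, and for some `n ≥ 1` and some `ρ` with `ρ^n = t` the field `F₀` is contained in the
extension `F(k̄, ρ)` of `F`. -/
structure ConstantOverRoots (t : K) : Prop where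
  model : ∀ z : F, algebraMap F Ω z ∈
    Subfield.closure ((algebraicClosure K Ω : Set Ω) ∪ modelSet k K F Ω x)
  root : ∃ (n : ℕ) (ρ : Ω), 0 < n ∧ ρ ^ n = algebraMap K Ω t ∧ ∀ w ∈ modelSet k K F Ω x,
    w ∈ IntermediateField.adjoin F ((algebraicClosure k Ω : Set Ω) ∪ {ρ})

/-- The curve is constant over `k̄ K`: the field `F₀` is contained in `F(k̄)`. -/
def IsConstant : Prop :=
  ∀ w ∈ modelSet k K F Ω x, w ∈ IntermediateField.adjoin F (algebraicClosure k Ω : Set Ω)

/-- The genus of the curve is positive: `M₀ ≠ F₀`. -/
def PositiveGenus : Prop :=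
  ∃ z ∈ modelProEll ℓ k K F Ω x, z ∉ modelField k K F Ω x

end model

section places

/-- The valuation ring `W` of `N` contains `K`. -/
def ContainsConstants (K : Type) {F N : Type} [Field K] [Field F] [Field N] [Algebra K F]
    [Algebra F N] (W : ValuationSubring N) : Prop :=
  ∀ c : K, algebraMap F N (algebraMap K F c) ∈ W

/-- The covering `x` is ramified at the valuation ring `W` of `N`, where `K̄ F ⊆ N ⊆ Ω`: there is an
element `z ≠ 0` of `K̄ F` whose valuation is different from the valuations of all elements `u ≠ 0` of
`K̄(x)`. -/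
def RamifiedAt (K Ω : Type) {F N : Type} [Field K] [Field F] [Field Ω] [Field N] [Algebra K F]
    [Algebra F Ω] [Algebra K Ω] [Algebra N Ω] (x : F) (W : ValuationSubring N) : Prop :=
  ∃ z : N, algebraMap N Ω z ∈ geomField K F Ω ∧ z ≠ 0 ∧
    ∀ u : N, algebraMap N Ω u ∈ lineField K Ω x → u ≠ 0 → ¬ (z / u ∈ W ∧ (z / u)⁻¹ ∈ W)

/-- The residue field of `W ∩ F` is `K`. -/
def RationalResidue (K F : Type) {N : Type} [Field K] [Field F] [Field N] [Algebra K F]
    [Algebra F N] (W : ValuationSubring N) : Prop :=
  ∀ z : F, algebraMap F N z ∈ W → ∃ c : K, algebraMap F N (z - algebraMap K F c) ∈ W.nonunits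

variable {k F Ω K N : Type} [Field k] [Field F] [Field Ω] [Field K] [Field N]
    [Algebra k F] [Algebra k K] [Algebra F N] [Algebra F Ω] [Algebra K Ω] [Algebra N Ω]

/-- The image of `s : Gal(K/k) → Gal(N/F)` in `Gal(M/F)`, where `M ⊆ N ⊆ Ω`, is contained in the
decomposition group of the valuation ring `W ∩ M`. -/
def InDecomposition (s : Splitting k F Ω K N) (M : IntermediateField F Ω)
    (W : ValuationSubring N) : Prop :=
  ∀ σ, ∀ z : N, algebraMap N Ω z ∈ M → (s.toHom σ z ∈ W ↔ z ∈ W)

/-- The splittings `s` and `s'` of `Gal(N/F) → Gal(K/k)` agree on `M`. -/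
def AgreeOn (M : IntermediateField F Ω) (s s' : Splitting k F Ω K N) : Prop :=
  ∀ σ, ∀ z : N, algebraMap N Ω z ∈ M → s.toHom σ z = s'.toHom σ z

/-- The splitting `s` of `Gal(N/F) → Gal(K/k)` induces on `M ⊆ N` the section of exactly one point of
the curve, and this is a `k`-rational point at which `x` is ramified: there is a valuation ring `W` of
`N` over `k` at which `x` is ramified, with residue field `k` of `W ∩ F`, such that the image of `s` in
`Gal(M/F)` is contained in the decomposition group of `W ∩ M`; all splittings with the last property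
induce the same section on `M`; and `W ∩ M` is the only valuation ring of `M` over `k`, different from
`M`, with this property. -/
def FromOneRationalPoint [Algebra k Ω] (x : F) (s : Splitting k F Ω K N)
    (M : IntermediateField F Ω) : Prop :=
  ∃ W : ValuationSubring N,
    ContainsConstants (F := F) k W ∧ RamifiedAt k Ω x W ∧ RationalResidue k F W ∧
    InDecomposition s M W ∧
    (∀ s' : Splitting k F Ω K N, InDecomposition s' M W → AgreeOn M s s') ∧
    ∀ W' : ValuationSubring N, ContainsConstants (F := F) k W' →
      (∃ z : N, algebraMap N Ω z ∈ M ∧ z ∉ W') → InDecomposition s M W' →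
        ∀ z : N, algebraMap N Ω z ∈ M → (z ∈ W' ↔ z ∈ W)

/-- If `σ ∈ Gal(K/k)` is the identity on `K ∩ A`, then `s(σ)` is the identity on `N ∩ B`, for two
subsets `A` and `B` of `Ω`. -/
def TrivialOn (s : Splitting k F Ω K N) (A B : Set Ω) : Prop :=
  ∀ σ : K ≃ₐ[k] K, (∀ c : K, algebraMap K Ω c ∈ A → σ c = c) →
    ∀ z : N, algebraMap N Ω z ∈ B → s.toHom σ z = z

end places

section curves

/-- `K` is the field of rational functions `k(t)`. -/
def IsRationalFunctionField (k : Type) {K : Type} [Field k] [Field K] [Algebra k K] (t : K) : Prop :=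
  Transcendental k t ∧ IntermediateField.adjoin k {t} = ⊤

/-- `F` is a finite extension of `K(x)`, where `x` is transcendental over `K`. -/
def IsCovering (K : Type) {F : Type} [Field K] [Field F] [Algebra K F] (x : F) : Prop :=
  Transcendental K x ∧ FiniteDimensional (IntermediateField.adjoin K {x}) F

end curves

section proof

variable {ℓ : ℕ} {k K F Ω : Type} [Field k] [Field K] [Field F] [Field Ω] [Algebra k K]
  [Algebra k F] [Algebra K F] [IsScalarTower k K F] [Algebra F Ω] [Algebra k Ω] [Algebra K Ω]
  [IsScalarTower k F Ω] [IsScalarTower K F Ω] [IsScalarTower k K Ω] {x : F}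

lemma lev_iff {E Ω : Type} [Field E] [Field Ω] [Algebra E Ω] (L : IntermediateField E Ω) :
    FiniteProEll ℓ L ↔ Pool.Agent.Y157.PS.Lev ℓ L :=
  ⟨fun ⟨h1, h2, h3⟩ => ⟨h1, h2, h3⟩, fun ⟨h1, h2, h3⟩ => ⟨h1, h2, h3⟩⟩

lemma unr_iff {κ E Ω : Type} [Field κ] [Field E] [Field Ω] [Algebra κ Ω] [Algebra E Ω]
    (L : IntermediateField E Ω) : Unramified (κ := κ) L ↔ Pool.Agent.Y157.PS.Unr κ E Ω L := by
  constructor
  · intro h W hW z hz hz0
    obtain ⟨u, hu, h1, h2⟩ := h W hW z hz hz0
    exact ⟨u, hu, div_ne_zero hz0 ((_root_.map_ne_zero _).2 hu), h1, h2⟩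
  · intro h W hW z hz hz0
    obtain ⟨u, hu, -, h1, h2⟩ := h W hW z hz hz0
    exact ⟨u, hu, h1, h2⟩

lemma maxPro_eq (ℓ : ℕ) (κ E Ω : Type) [Field κ] [Field E] [Field Ω] [Algebra κ Ω]
    [Algebra E Ω] : maxProEll ℓ κ E Ω = Pool.Agent.Y157.PS.maxPro ℓ κ E Ω := by
  apply le_antisymm
  · refine iSup_le fun L => ?_
    exact le_iSup (fun L : {L : IntermediateField E Ω // Pool.Agent.Y157.PS.Lev ℓ L ∧
      Pool.Agent.Y157.PS.Unr κ E Ω L} => L.1) ⟨L.1, (lev_iff L.1).1 L.2.1, (unr_iff L.1).1 L.2.2⟩
  · refine iSup_le fun L => ?_
    exact le_iSup (fun L : {L : IntermediateField E Ω // FiniteProEll ℓ L ∧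
      Unramified (κ := κ) L} => L.1) ⟨L.1, (lev_iff L.1).2 L.2.1, (unr_iff L.1).2 L.2.2⟩

lemma mem_model (z : LineBar k Ω x) : z ∈ modelProEll ℓ k K F Ω x ↔
    z ∈ Pool.Agent.Y157.PS.maxPro ℓ (algebraicClosure k Ω)
      (Pool.Agent.H889.RS.cf k K Ω x (Pool.Agent.H889.RS.rat_le x))
      (Pool.Agent.H889.RS.lc k Ω x) := by
  unfold modelProEll
  rw [maxPro_eq]
  exact Iff.rfl

lemma pro_eq : proEllField ℓ k K F Ω x = Pool.Agent.H889.RS.MM ℓ k K Ω x := by
  unfold proEllField Pool.Agent.H889.RS.MM
  congr 2
  ext w
  constructor
  · rintro ⟨y, hy, rfl⟩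
    exact ⟨y, (mem_model y).1 hy, rfl⟩
  · rintro ⟨y, hy, rfl⟩
    exact ⟨y, (mem_model y).2 hy, rfl⟩

end proof

/-- Let `k` be a field which is finitely generated over `ℚ`, for instance a number field, let
`K = k(t)`, let `ℓ` be a prime number, `F` the function field of a curve `C` over `K`, `Ω` an algebraic
closure of `F`, and `x ∈ F` a function which is transcendental over `K`.  Assume that `C` becomes
constant over `k̄(t^(1/n))` for some `n ≥ 1`, `x` being a function on the constant curve `C₀`, that the
genus is positive, and that `C₀` has a finite étale covering `C'` such that `C' → ℙ¹` is Galois with an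
`ℓ`-group.  Let `M = proEllField ℓ k K F Ω x`, the field `K̄ M₀` where `M₀` is the maximal unramified
pro-`ℓ` extension of the function field of `C₀`; then `M ⊆ F_U` for all sets `U` of valuation rings of
`F` over `K`, in particular for the set of all closed points of `C`.  Let `N ⊇ M` be an extension of `F`
in `Ω`, for instance `N = M` or `N = F_U`, and let `s` be a section of `Gal(N/F) → G_K`.  If `C` is not
constant over `k̄(t)`, then `s` induces on `M` the section of exactly one point of `C`, this is a
`K`-rational point, and `x` is ramified there.  If `C` is constant over `k̄(t)`, then `s` is constant on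
`M₀`. -/
theorem result (k K F Ω : Type) [Field k] [CharZero k] (hk : (⊤ : IntermediateField ℚ k).FG)
    [Field K] [Field F] [Field Ω] [Algebra k K] [Algebra k F] [Algebra K F] [IsScalarTower k K F]
    [Algebra F Ω] [Algebra k Ω] [Algebra K Ω] [IsScalarTower k F Ω] [IsScalarTower K F Ω]
    [IsScalarTower k K Ω] [IsAlgClosure F Ω] (t : K) (ht : IsRationalFunctionField k t) (ℓ : ℕ)
    [Fact ℓ.Prime] (x : F) (hx : IsCovering K x) (hC : ConstantOverRoots k F Ω x t)
    (hg : PositiveGenus ℓ k K F Ω x) (B : Finset (algebraicClosure k Ω))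
    (L : IntermediateField (Line k Ω x) (LineBar k Ω x))
    (hL : EllGroupCovering ℓ (coordinate k Ω x) B (modelField k K F Ω x) L) :
    (∀ U : Set (ValuationSubring F), (∀ O ∈ U, ∀ c : K, algebraMap K F c ∈ O) →
      proEllField ℓ k K F Ω x ≤ unramified F Ω U) ∧
    ∀ N : IntermediateField F Ω, proEllField ℓ k K F Ω x ≤ N →
      ∀ s : Splitting K F Ω (algebraicClosure K Ω) N,
        (¬ IsConstant k K F Ω x → FromOneRationalPoint x s (proEllField ℓ k K F Ω x)) ∧
        (IsConstant k K F Ω x → TrivialOn s (algebraicClosure k Ω) (modelProSet ℓ k K F Ω x)) := by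
  have hcl : IsAlgClosed Ω := IsAlgClosure.isAlgClosed F
  have halg : Algebra.IsAlgebraic F Ω := IsAlgClosure.isAlgebraic
  have hnF : Normal F Ω := IsAlgClosure.normal F Ω
  have hcov : Pool.Agent.H889.RS.CovH k K ℓ x B L := by
    refine ⟨(lev_iff L).1 hL.galois, hL.contains, ?_, ?_, ?_⟩
    · intro W hW z hz hz0
      obtain ⟨u, hu, hu0, h1, h2⟩ := hL.etale W hW z hz hz0
      exact ⟨u, hu, hu0, div_ne_zero hz0 hu0, h1, h2⟩
    · intro W hW hxW hB z hz hz0
      obtain ⟨u, hu, h1, h2⟩ := hL.branch W hW hxW hB z hz hz0
      exact ⟨u, hu, div_ne_zero hz0 ((_root_.map_ne_zero _).2 hu), h1, h2⟩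
    · obtain ⟨z, hz, hz'⟩ := hg
      exact ⟨z, (mem_model z).1 hz, hz'⟩
  obtain ⟨n, ρ, hn, hρ, hnρ⟩ := hC.root
  obtain ⟨h1, h2⟩ := Pool.Agent.H889.RS.finS (Ω := Ω) hk (t := t) ⟨ht.1, ht.2⟩ x hx.1 hcov hC.model
    ⟨n, ρ, hn, hρ, fun y hy => hnρ _ ⟨y, hy, rfl⟩⟩
  refine ⟨fun U hU z hz => ?_, fun N hN s => ?_⟩
  · change z ∈ Pool.Agent.W620.SC.unramified F Ω U
    rw [Pool.Agent.W620.SC.mem_unramified]
    intro W hW σ hσ
    rw [pro_eq] at hz
    refine h1 W (fun c => ?_) σ (fun y hy => (Pool.Agent.W620.SC.inertia_spec hσ hy).2) z hz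
    have h3 := hU _ hW c
    rw [ValuationSubring.mem_comap] at h3
    rw [IsScalarTower.algebraMap_apply K F Ω]
    exact h3
  · rw [pro_eq] at hN
    obtain ⟨h3, h4⟩ := h2 N hN s.toHom s.cont (fun σ c z hz => s.compat σ c z hz)
    refine ⟨fun hnc => ?_, fun hc σ hσ z hz => ?_⟩
    · rw [pro_eq]
      obtain ⟨W, w1, w2, w3, w4, w5, w6⟩ := h4 (by
        unfold IsConstant at hnc
        push Not at hnc
        obtain ⟨w, ⟨y, hy, rfl⟩, hw⟩ := hnc
        exact ⟨y, hy, hw⟩)
      refine ⟨W, w1, ?_, w3, w4, fun s' hs' σ z hz => ?_, fun W' hW' hne hs' => ?_⟩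
      · obtain ⟨z, hz, hz0, hu⟩ := w2
        exact ⟨z, hz, hz0, fun u hu1 hu0 h => hu u hu1 hu0 ⟨div_ne_zero hz0 hu0, h.1, h.2⟩⟩
      · let τ : N ≃ₐ[F] N := (s.toHom σ).trans (s'.toHom σ).symm
        have hτ : ∀ z : N, s'.toHom σ (τ z) = s.toHom σ z := fun z =>
          (s'.toHom σ).apply_symm_apply _
        have hτM : ∀ z : N, (z : Ω) ∈ Pool.Agent.H889.RS.MM ℓ k K Ω x →
            ((τ z : N) : Ω) ∈ Pool.Agent.H889.RS.MM ℓ k K Ω x := fun z hz =>
          Pool.Agent.H889.RS.mm_stabN x τ z hz
        have h5 := w5 τ (fun z hz => by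
          apply (s'.toHom σ).injective
          rw [hτ]
          apply Subtype.ext
          exact (s.compat σ ⟨z, hz⟩ z rfl).trans (s'.compat σ ⟨z, hz⟩ z rfl).symm)
          (fun z hz => by
            rw [← w4 σ z hz, ← hs' σ (τ z) (hτM z hz), hτ]) z hz
        rw [← hτ z, h5]
      · exact w6 W' hW' (fun σ z hz => hs' σ z hz) hne
    · refine h3 (fun y hy => hc _ ⟨y, hy, rfl⟩) σ hσ z ?_
      obtain ⟨y, hy, hyz⟩ := hz
      exact ⟨y, (mem_model y).1 hy, hyz⟩

end Pool.Agent.Results.MP_e66f84_ag.TwistedConstantCurves
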